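import Mathlib
import Pool.Agent.Helper270.QD
import Pool.Agent.Helper270.RE
import Pool.Agent.Helper270.SC

/-!
# Infinite groups `Q(n,m)`: all ranks with explicit `m`, and rank 3

`H270Q.nielsen n hn` is the Nielsen move `a_1 ↦ a_2 a_1`, `a_i ↦ a_i` (`i ≥ 2`) of the free
group on `a_1, …, a_n` (indexed by `Fin n`, so `a_1 = of 0`, `a_2 = of 1`), and
`H270Q.Q n m hn` is the quotient of `Aut(F_n)` by the normal closure of its `m`-th power.
-/

namespace Pool.Agent.Results.MP_89352f_al.EvenOrNotSquarefree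

/-- `Q(3,m)` is infinite for every `m ≥ 3` that is even or not squarefree, and `Q(n,m)` is
infinite if `p^(k+1)` divides `m` for a prime power `p^k ≥ n`. -/
theorem result :
    (∀ m : ℕ, 3 ≤ m → (Even m ∨ ¬ Squarefree m) → Infinite (H270Q.Q 3 m (by norm_num))) ∧
    (∀ (n m p k : ℕ) (hn : 2 ≤ n), p.Prime → n ≤ p ^ k → p ^ (k + 1) ∣ m →
      Infinite (H270Q.Q n m hn)) := by
  have h2 : ∀ (n m p k : ℕ) (hn : 2 ≤ n), p.Prime → n ≤ p ^ k → p ^ (k + 1) ∣ m →
      Infinite (H270Q.Q n m hn) :=
    fun n m p k hn hp hnk hm => H270Q.prime_power_case p k n m hp hn hnk hm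
  have he : ∀ m : ℕ, 3 ≤ m → Even m → Infinite (H270Q.Q 3 m (by norm_num)) := by
    intro m hm hev
    rcases Nat.lt_or_ge m 6 with h | h
    · have : m = 4 := by
        obtain ⟨k, hk⟩ := hev
        omega
      subst this
      exact H270S.four_case
    · exact H270R.even_case hev h
  refine ⟨?_, h2⟩
  rintro m hm (hev | hsq)
  · exact he m hm hev
  · rw [Nat.squarefree_iff_prime_squarefree] at hsq
    push Not at hsq
    obtain ⟨p, hp, hd⟩ := hsq
    rcases hp.eq_two_or_odd' with rfl | hodd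
    · exact he m hm (even_iff_two_dvd.2 (dvd_trans (by norm_num) hd))
    · have hp3 : 3 ≤ p := by
        have := hp.two_le
        obtain ⟨k, hk⟩ := hodd
        omega
      exact h2 3 m p 1 (by norm_num) hp (by simpa using hp3) (by rw [pow_two]; exact hd)

end Pool.Agent.Results.MP_89352f_al.EvenOrNotSquarefree
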