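import Mathlib
import Pool.Agent.Helper270.QD

/-!
# `Q(n,m)` is infinite when a prime power `p^k ≥ n` has `p^(k+1) ∣ m`

`H270Q.nielsen n hn` is the Nielsen move `a_1 ↦ a_2 a_1`, `a_i ↦ a_i` (`i ≥ 2`) of the free
group on `a_1, …, a_n` (indexed by `Fin n`, so `a_1 = of 0`, `a_2 = of 1`), and
`H270Q.Q n m hn` is the quotient of `Aut(F_n)` by the normal closure of its `m`-th power.
-/

namespace Pool.Agent.Results.MP_89352f_al.PrimePower

/-- If `n ≥ 2`, `p` is prime, `n ≤ p^k` and `p^(k+1)` divides `m`, then `Q(n,m)` is infinite. -/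
theorem result (n m p k : ℕ) (hn : 2 ≤ n) (hp : p.Prime) (hnk : n ≤ p ^ k)
    (hm : p ^ (k + 1) ∣ m) : Infinite (H270Q.Q n m hn) :=
  H270Q.prime_power_case p k n m hp hn hnk hm

end Pool.Agent.Results.MP_89352f_al.PrimePower
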